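import Mathlib
set_option autoImplicit false
namespace Pool.Agent.Y369.MD.Plane

/-- Half of the crossing lemma. -/
lemma cross_aux {S C P Q : ℝ} (hS : 0 < S) (hC : 0 < C) (hSC : S + C = 1) (hP : P ≤ 1)
    (hQ : 0 ≤ Q) (h2 : S * (2 - P) ^ 2 + C * Q ^ 2 ≤ 1)
    (h3 : C * (1 + Q) ^ 2 + S * (P - 1) ^ 2 ≤ 1) : Q ≤ P := by
  by_contra hcon
  push Not at hcon
  have h3' : C * (Q * (Q + 2)) ≤ S * (P * (2 - P)) := by nlinarith
  have hCQ : 0 ≤ C * (Q * (Q + 2)) := by positivity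
  have hP0 : 0 ≤ P := by
    by_contra hneg
    push Not at hneg
    have : S * (P * (2 - P)) < 0 := mul_neg_of_pos_of_neg hS (by nlinarith)
    linarith
  have hPpos : 0 < P := by
    rcases hP0.lt_or_eq with h | h
    · exact h
    · exfalso
      rw [← h] at h3' hcon
      have : 0 < C * (Q * (Q + 2)) := by positivity
      linarith
  have h2' : S * ((1 - P) * (3 - P)) ≤ C * (1 - Q ^ 2) := by nlinarith
  have hP1 : P < 1 := by
    rcases hP.lt_or_eq with h | h
    · exact h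
    · exfalso
      rw [h] at h2' hcon
      have : C * (1 - Q ^ 2) < 0 := mul_neg_of_pos_of_neg hC (by nlinarith)
      nlinarith
  have h4 : C * (1 - Q ^ 2) ≤ C * ((1 - P) * (1 + P)) := by
    apply mul_le_mul_of_nonneg_left _ hC.le
    nlinarith
  have h5 : S * (3 - P) ≤ C * (1 + P) := by
    have : (1 - P) * (S * (3 - P)) ≤ (1 - P) * (C * (1 + P)) := by nlinarith
    exact le_of_mul_le_mul_left this (by linarith)
  have h6 : C * (P + 2) < S * (2 - P) := by
    have h7 : C * (P * (P + 2)) < C * (Q * (Q + 2)) := by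
      apply mul_lt_mul_of_pos_left _ hC
      nlinarith
    have : P * (C * (P + 2)) < P * (S * (2 - P)) := by nlinarith
    exact lt_of_mul_lt_mul_left this hP0
  have h8 : S * (3 - P) * (P + 2) ≤ C * (1 + P) * (P + 2) :=
    mul_le_mul_of_nonneg_right h5 (by linarith)
  have h9 : C * (P + 2) * (1 + P) < S * (2 - P) * (1 + P) :=
    mul_lt_mul_of_pos_right h6 (by linarith)
  have h10 : S * ((3 - P) * (P + 2) - (2 - P) * (1 + P)) < 0 := by nlinarith
  have h11 : 0 < S * ((3 - P) * (P + 2) - (2 - P) * (1 + P)) := by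
    apply mul_pos hS
    nlinarith
  linarith

/-- The four distance conditions force two chords to cross. -/
lemma cross {k A B : ℝ} (hk1 : -1 < k) (hk2 : k < 1)
    (h1 : A ^ 2 + B ^ 2 - 2 * k * A * B ≤ 1)
    (h2 : (1 - A) ^ 2 + (1 - B) ^ 2 - 2 * k * (1 - A) * (1 - B) ≤ 1)
    (h3 : A ^ 2 + (1 - B) ^ 2 + 2 * k * A * (1 - B) ≤ 1)
    (h4 : (1 - A) ^ 2 + B ^ 2 + 2 * k * (1 - A) * B ≤ 1) :
    0 ≤ A ∧ A ≤ 1 ∧ 0 ≤ B ∧ B ≤ 1 := by
  have hS : 0 < (1 - k) / 2 := by linarith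
  have hC : 0 < (1 + k) / 2 := by linarith
  have hSC : (1 - k) / 2 + (1 + k) / 2 = 1 := by ring
  rcases le_total (A + B) 1 with hP | hP <;> rcases le_total B A with hQ | hQ
  · have := cross_aux (P := A + B) (Q := A - B) hS hC hSC hP (by linarith)
      (by nlinarith) (by nlinarith)
    refine ⟨?_, ?_, ?_, ?_⟩ <;> linarith
  · have := cross_aux (P := A + B) (Q := B - A) hS hC hSC hP (by linarith)
      (by nlinarith) (by nlinarith)
    refine ⟨?_, ?_, ?_, ?_⟩ <;> linarith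
  · have := cross_aux (P := 2 - (A + B)) (Q := A - B) hS hC hSC (by linarith) (by linarith)
      (by nlinarith) (by nlinarith)
    refine ⟨?_, ?_, ?_, ?_⟩ <;> linarith
  · have := cross_aux (P := 2 - (A + B)) (Q := B - A) hS hC hSC (by linarith) (by linarith)
      (by nlinarith) (by nlinarith)
    refine ⟨?_, ?_, ?_, ?_⟩ <;> linarith

lemma quad_le {b c T t m : ℝ} (h0 : c ≤ m) (hT : T ^ 2 + b * T + c ≤ m) (ht0 : 0 ≤ t)
    (htT : t ≤ T) : t ^ 2 + b * t + c ≤ m := by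
  rcases le_total (t + b) 0 with h | h
  · nlinarith
  · nlinarith

lemma quad_eq {b c T t m : ℝ} (h0 : c ≤ m) (hT : T ^ 2 + b * T + c ≤ m) (ht0 : 0 ≤ t)
    (htT : t ≤ T) (h : t ^ 2 + b * t + c = m) : t = 0 ∨ t = T := by
  by_contra hcon
  push Not at hcon
  have h1 : 0 < t := lt_of_le_of_ne ht0 (Ne.symm hcon.1)
  have h2 : t < T := lt_of_le_of_ne htT hcon.2
  rcases le_or_gt (t + b) 0 with h3 | h3
  · have h4 : c = m := by nlinarith
    have h5 : t + b = 0 := by
      have : t * (t + b) = 0 := by nlinarith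
      rcases mul_eq_zero.1 this with h6 | h6
      · linarith
      · exact h6
    have h6 : T * (T + b) ≤ 0 := by nlinarith
    nlinarith
  · nlinarith

/-- Two variable version. -/
lemma quad2_le {k X Y x y m : ℝ} (hX : X ^ 2 ≤ m) (hY : Y ^ 2 ≤ m)
    (hXY : X ^ 2 + Y ^ 2 - 2 * k * X * Y ≤ m) (_hm : 0 ≤ m) (hx0 : 0 ≤ x) (hxX : x ≤ X)
    (hy0 : 0 ≤ y) (hyY : y ≤ Y) : x ^ 2 + y ^ 2 - 2 * k * x * y ≤ m := by
  have h1 : X ^ 2 + y ^ 2 - 2 * k * X * y ≤ m := by
    have := quad_le (b := -2 * k * X) (c := X ^ 2) (T := Y) (t := y) (m := m) hX (by linarith)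
      hy0 hyY
    linarith
  have h2 : y ^ 2 ≤ m := by nlinarith
  have := quad_le (b := -2 * k * y) (c := y ^ 2) (T := X) (t := x) (m := m) h2 (by linarith)
      hx0 hxX
  linarith

lemma quad2_eq {k X Y x y m : ℝ} (hX : X ^ 2 ≤ m) (hY : Y ^ 2 ≤ m)
    (hXY : X ^ 2 + Y ^ 2 - 2 * k * X * Y ≤ m) (hx0 : 0 ≤ x) (hxX : x ≤ X)
    (hy0 : 0 ≤ y) (hyY : y ≤ Y) (h : x ^ 2 + y ^ 2 - 2 * k * x * y = m) :
    (x = 0 ∨ x = X) ∧ (y = 0 ∨ y = Y) := by
  constructor
  · have h1 : X ^ 2 + y ^ 2 - 2 * k * X * y ≤ m := by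
      have := quad_le (b := -2 * k * X) (c := X ^ 2) (T := Y) (t := y) (m := m) hX (by linarith)
        hy0 hyY
      linarith
    have h2 : y ^ 2 ≤ m := by nlinarith
    exact quad_eq (b := -2 * k * y) (c := y ^ 2) (T := X) (t := x) (m := m) h2 (by linarith)
      hx0 hxX (by linarith)
  · have h1 : x ^ 2 + Y ^ 2 - 2 * k * x * Y ≤ m := by
      have := quad_le (b := -2 * k * Y) (c := Y ^ 2) (T := X) (t := x) (m := m) hY (by linarith)
        hx0 hxX
      linarith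
    have h2 : x ^ 2 ≤ m := by nlinarith
    exact quad_eq (b := -2 * k * x) (c := x ^ 2) (T := Y) (t := y) (m := m) h2 (by linarith)
      hy0 hyY (by linarith)

/-- The mixed vertex. -/
lemma mixed {k l A B : ℝ} (h0 : 0 ≤ l) (hl : l ≤ 1 / 2) (hA0 : 0 ≤ A) (hA1 : A ≤ 1)
    (h3 : A ^ 2 + B ^ 2 + 2 * k * A * B ≤ 1) :
    ((1 - l) * A) ^ 2 + (l * B) ^ 2 + 2 * k * ((1 - l) * A) * (l * B) ≤ (1 - l) ^ 2 := by
  have e : ((1 - l) * A) ^ 2 + (l * B) ^ 2 + 2 * k * ((1 - l) * A) * (l * B) =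
    l * (1 - l) * (A ^ 2 + B ^ 2 + 2 * k * A * B) + (1 - l) * (1 - l - l) * A ^ 2
      - l * (1 - l - l) * B ^ 2 := by ring
  have a1 : l * (1 - l) * (A ^ 2 + B ^ 2 + 2 * k * A * B) ≤ l * (1 - l) * 1 :=
    mul_le_mul_of_nonneg_left h3 (mul_nonneg h0 (by linarith))
  have a2 : (1 - l) * (1 - l - l) * A ^ 2 ≤ (1 - l) * (1 - l - l) * 1 :=
    mul_le_mul_of_nonneg_left (by nlinarith) (mul_nonneg (by linarith) (by linarith))
  have a3 : 0 ≤ l * (1 - l - l) * B ^ 2 :=
    mul_nonneg (mul_nonneg h0 (by linarith)) (sq_nonneg _)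
  rw [e]
  linarith

/-- The planar bound in real numbers. -/
lemma plane_le {k l A B : ℝ} (h0 : 0 ≤ l) (hl : l ≤ 1 / 2)
    (hA0 : 0 ≤ A) (hA1 : A ≤ 1) (hB0 : 0 ≤ B) (hB1 : B ≤ 1)
    (h1 : A ^ 2 + B ^ 2 - 2 * k * A * B ≤ 1)
    (h2 : (1 - A) ^ 2 + (1 - B) ^ 2 - 2 * k * (1 - A) * (1 - B) ≤ 1)
    (h3 : A ^ 2 + (1 - B) ^ 2 + 2 * k * A * (1 - B) ≤ 1)
    (h4 : (1 - A) ^ 2 + B ^ 2 + 2 * k * (1 - A) * B ≤ 1) :
    (A - l) ^ 2 + (B - l) ^ 2 - 2 * k * (A - l) * (B - l) ≤ (1 - l) ^ 2 := by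
  have hm : 0 ≤ (1 - l) ^ 2 := sq_nonneg _
  have hv : ∀ D : ℝ, 0 ≤ D → D ≤ 1 → ((1 - l) * D) ^ 2 ≤ (1 - l) ^ 2 := by
    intro D hD0 hD1
    rw [mul_pow]
    nlinarith [mul_le_mul_of_nonneg_left (show D ^ 2 ≤ 1 by nlinarith) hm]
  have hw : ∀ D : ℝ, 0 ≤ D → D ≤ 1 → (l * D) ^ 2 ≤ (1 - l) ^ 2 := by
    intro D hD0 hD1
    have : l * D ≤ 1 - l := by nlinarith
    exact pow_le_pow_left₀ (mul_nonneg h0 hD0) this 2
  rcases le_total l A with hA | hA <;> rcases le_total l B with hB | hB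
  · refine quad2_le (X := (1 - l) * A) (Y := (1 - l) * B) (hv A hA0 hA1) (hv B hB0 hB1) ?_ hm
      (by linarith) (by nlinarith) (by linarith) (by nlinarith)
    have e : ((1 - l) * A) ^ 2 + ((1 - l) * B) ^ 2 - 2 * k * ((1 - l) * A) * ((1 - l) * B) =
      (1 - l) ^ 2 * (A ^ 2 + B ^ 2 - 2 * k * A * B) := by ring
    rw [e]
    nlinarith [mul_le_mul_of_nonneg_left h1 hm]
  · have := quad2_le (k := -k) (x := A - l) (y := l - B) (X := (1 - l) * A) (Y := l * (1 - B))
      (hv A hA0 hA1) (hw (1 - B) (by linarith) (by linarith))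
      (by have := mixed (k := k) (B := 1 - B) h0 hl hA0 hA1 h3; linarith) hm
      (by linarith) (by nlinarith) (by linarith) (by nlinarith)
    linarith
  · have := quad2_le (k := -k) (x := l - A) (y := B - l) (X := l * (1 - A)) (Y := (1 - l) * B)
      (hw (1 - A) (by linarith) (by linarith)) (hv B hB0 hB1)
      (by have := mixed (k := k) (A := B) (B := 1 - A) h0 hl hB0 hB1 (by linarith); linarith) hm
      (by linarith) (by nlinarith) (by linarith) (by nlinarith)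
    linarith
  · have := quad2_le (k := k) (x := l - A) (y := l - B) (X := l * (1 - A)) (Y := l * (1 - B))
      (hw (1 - A) (by linarith) (by linarith)) (hw (1 - B) (by linarith) (by linarith))
      (by
        have e : (l * (1 - A)) ^ 2 + (l * (1 - B)) ^ 2 - 2 * k * (l * (1 - A)) * (l * (1 - B)) =
          l ^ 2 * ((1 - A) ^ 2 + (1 - B) ^ 2 - 2 * k * (1 - A) * (1 - B)) := by ring
        rw [e]
        have := mul_le_mul_of_nonneg_left h2 (sq_nonneg l)
        nlinarith) hm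
      (by linarith) (by nlinarith) (by linarith) (by nlinarith)
    linarith

lemma top_vertex {l D : ℝ} (h0 : 0 < l) (hD : D - l = 0 ∨ D - l = (1 - l) * D) :
    D = l ∨ D = 1 := by
  rcases hD with hD | hD
  · left; linarith
  · right
    have : l * (D - 1) = 0 := by linarith
    rcases mul_eq_zero.1 this with h | h <;> linarith

lemma bot_vertex {l D : ℝ} (hl : l ≤ 1 / 2) (hD : l - D = 0 ∨ l - D = l * (1 - D)) :
    D = l ∨ D = 0 := by
  rcases hD with hD | hD
  · left; linarith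
  · right
    have : (1 - l) * D = 0 := by linarith
    rcases mul_eq_zero.1 this with h | h <;> linarith

/-- Equality in the planar bound: the vertices. -/
lemma plane_vertices {k l A B : ℝ} (h0 : 0 < l) (hl : l ≤ 1 / 2)
    (hA0 : 0 ≤ A) (hA1 : A ≤ 1) (hB0 : 0 ≤ B) (hB1 : B ≤ 1)
    (h1 : A ^ 2 + B ^ 2 - 2 * k * A * B ≤ 1)
    (h2 : (1 - A) ^ 2 + (1 - B) ^ 2 - 2 * k * (1 - A) * (1 - B) ≤ 1)
    (h3 : A ^ 2 + (1 - B) ^ 2 + 2 * k * A * (1 - B) ≤ 1)
    (h4 : (1 - A) ^ 2 + B ^ 2 + 2 * k * (1 - A) * B ≤ 1)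
    (h : (A - l) ^ 2 + (B - l) ^ 2 - 2 * k * (A - l) * (B - l) = (1 - l) ^ 2) :
    (A = l ∨ A = 1 ∨ A = 0) ∧ (B = l ∨ B = 1 ∨ B = 0) := by
  have hm : 0 ≤ (1 - l) ^ 2 := sq_nonneg _
  have hv : ∀ D : ℝ, 0 ≤ D → D ≤ 1 → ((1 - l) * D) ^ 2 ≤ (1 - l) ^ 2 := by
    intro D hD0 hD1
    rw [mul_pow]
    nlinarith [mul_le_mul_of_nonneg_left (show D ^ 2 ≤ 1 by nlinarith) hm]
  have hw : ∀ D : ℝ, 0 ≤ D → D ≤ 1 → (l * D) ^ 2 ≤ (1 - l) ^ 2 := by
    intro D hD0 hD1
    have : l * D ≤ 1 - l := by nlinarith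
    exact pow_le_pow_left₀ (mul_nonneg h0.le hD0) this 2
  have gA : A - l ≤ (1 - l) * A := by nlinarith
  have gB : B - l ≤ (1 - l) * B := by nlinarith
  have gA' : l - A ≤ l * (1 - A) := by nlinarith
  have gB' : l - B ≤ l * (1 - B) := by nlinarith
  rcases le_total l A with hA | hA <;> rcases le_total l B with hB | hB
  · have := quad2_eq (X := (1 - l) * A) (Y := (1 - l) * B) (hv A hA0 hA1) (hv B hB0 hB1) (by
      have e : ((1 - l) * A) ^ 2 + ((1 - l) * B) ^ 2 - 2 * k * ((1 - l) * A) * ((1 - l) * B) =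
        (1 - l) ^ 2 * (A ^ 2 + B ^ 2 - 2 * k * A * B) := by ring
      rw [e]
      linarith [mul_le_mul_of_nonneg_left h1 hm])
      (by linarith) gA (by linarith) gB h
    have a := top_vertex h0 this.1
    have b := top_vertex h0 this.2
    exact ⟨by rcases a with a | a <;> simp [a], by rcases b with b | b <;> simp [b]⟩
  · have := quad2_eq (k := -k) (x := A - l) (y := l - B) (X := (1 - l) * A) (Y := l * (1 - B))
      (hv A hA0 hA1) (hw (1 - B) (by linarith) (by linarith))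
      (by have := mixed (k := k) (B := 1 - B) h0.le hl hA0 hA1 h3; linarith)
      (by linarith) gA (by linarith) gB' (by linarith)
    have a := top_vertex h0 this.1
    have b := bot_vertex hl this.2
    exact ⟨by rcases a with a | a <;> simp [a], by rcases b with b | b <;> simp [b]⟩
  · have := quad2_eq (k := -k) (x := l - A) (y := B - l) (X := l * (1 - A)) (Y := (1 - l) * B)
      (hw (1 - A) (by linarith) (by linarith)) (hv B hB0 hB1)
      (by have := mixed (k := k) (A := B) (B := 1 - A) h0.le hl hB0 hB1 (by linarith)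
          linarith)
      (by linarith) gA' (by linarith) gB (by linarith)
    have a := bot_vertex hl this.1
    have b := top_vertex h0 this.2
    exact ⟨by rcases a with a | a <;> simp [a], by rcases b with b | b <;> simp [b]⟩
  · have := quad2_eq (k := k) (x := l - A) (y := l - B) (X := l * (1 - A)) (Y := l * (1 - B))
      (hw (1 - A) (by linarith) (by linarith)) (hw (1 - B) (by linarith) (by linarith))
      (by
        have e : (l * (1 - A)) ^ 2 + (l * (1 - B)) ^ 2 - 2 * k * (l * (1 - A)) * (l * (1 - B)) =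
          l ^ 2 * ((1 - A) ^ 2 + (1 - B) ^ 2 - 2 * k * (1 - A) * (1 - B)) := by ring
        rw [e]
        have := mul_le_mul_of_nonneg_left h2 (sq_nonneg l)
        nlinarith)
      (by linarith) gA' (by linarith) gB' (by linarith)
    have a := bot_vertex hl this.1
    have b := bot_vertex hl this.2
    exact ⟨by rcases a with a | a <;> simp [a], by rcases b with b | b <;> simp [b]⟩

/-- Equality in the planar bound. -/
lemma plane_eq {k l A B : ℝ} (h0 : 0 < l) (hl : l ≤ 1 / 2)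
    (hA0 : 0 ≤ A) (hA1 : A ≤ 1) (hB0 : 0 ≤ B) (hB1 : B ≤ 1)
    (h1 : A ^ 2 + B ^ 2 - 2 * k * A * B ≤ 1)
    (h2 : (1 - A) ^ 2 + (1 - B) ^ 2 - 2 * k * (1 - A) * (1 - B) ≤ 1)
    (h3 : A ^ 2 + (1 - B) ^ 2 + 2 * k * A * (1 - B) ≤ 1)
    (h4 : (1 - A) ^ 2 + B ^ 2 + 2 * k * (1 - A) * B ≤ 1)
    (h : (A - l) ^ 2 + (B - l) ^ 2 - 2 * k * (A - l) * (B - l) = (1 - l) ^ 2) :
    (A = 1 ∧ B = 1 ∧ k = 1 / 2) ∨ (A = 0 ∧ B = 0 ∧ k = 1 / 2) ∨
      (A = 1 ∧ B = 0 ∧ k = -1 / 2) ∨ (A = 0 ∧ B = 1 ∧ k = -1 / 2) := by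
  obtain ⟨hA | hA | hA, hB | hB | hB⟩ :=
    plane_vertices h0 hl hA0 hA1 hB0 hB1 h1 h2 h3 h4 h <;> subst hA <;> subst hB
  · -- A = B = l
    exfalso; nlinarith
  · exfalso
    -- A = l, B = 1
    have e1 : A * (A - 2 * k) ≤ 0 := by linarith
    have e2 : (1 - A) * ((1 - A) + 2 * k) ≤ 0 := by linarith
    have e3 : A - 2 * k ≤ 0 := by
      by_contra hc
      push Not at hc
      have := mul_pos h0 hc
      linarith
    have e4 : (1 - A) + 2 * k ≤ 0 := by
      by_contra hc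
      push Not at hc
      have := mul_pos (show 0 < 1 - A by linarith) hc
      linarith
    linarith
  · exfalso
    -- A = l, B = 0
    have e0 : A ^ 2 = (1 - A) ^ 2 := by linarith
    have e1 : A = 1 / 2 := by
      have : (2 * A - 1) * 1 = 0 := by nlinarith
      linarith
    subst e1
    linarith
  · exfalso
    have e1 : B * (B - 2 * k) ≤ 0 := by linarith
    have e2 : (1 - B) * ((1 - B) + 2 * k) ≤ 0 := by linarith
    have e3 : B - 2 * k ≤ 0 := by
      by_contra hc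
      push Not at hc
      have := mul_pos h0 hc
      linarith
    have e4 : (1 - B) + 2 * k ≤ 0 := by
      by_contra hc
      push Not at hc
      have := mul_pos (show 0 < 1 - B by linarith) hc
      linarith
    linarith
  · left
    refine ⟨rfl, rfl, ?_⟩
    have e1 : (1 - l) ^ 2 * (1 - 2 * k) = 0 := by linarith
    rcases mul_eq_zero.1 e1 with h5 | h5
    · have : 0 < (1 - l) ^ 2 := by
        have : 0 < 1 - l := by linarith
        positivity
      linarith
    · linarith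
  · right; right; left
    refine ⟨rfl, rfl, ?_⟩
    have e1 : l * (l + 2 * k * (1 - l)) = 0 := by linarith
    have e2 : l + 2 * k * (1 - l) = 0 := by
      rcases mul_eq_zero.1 e1 with h5 | h5
      · linarith
      · exact h5
    have e3 : 2 * k ≤ -1 := by linarith
    have e4 : 0 ≤ (1 - l) * (-1 - 2 * k) := mul_nonneg (by linarith) (by linarith)
    have e5 : l = 1 / 2 := by linarith
    subst e5
    linarith
  · exfalso
    have e0 : B ^ 2 = (1 - B) ^ 2 := by linarith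
    have e1 : B = 1 / 2 := by
      have : (2 * B - 1) * 1 = 0 := by nlinarith
      linarith
    subst e1
    linarith
  · right; right; right
    refine ⟨rfl, rfl, ?_⟩
    have e1 : l * (l + 2 * k * (1 - l)) = 0 := by linarith
    have e2 : l + 2 * k * (1 - l) = 0 := by
      rcases mul_eq_zero.1 e1 with h5 | h5
      · linarith
      · exact h5
    have e3 : 2 * k ≤ -1 := by linarith
    have e4 : 0 ≤ (1 - l) * (-1 - 2 * k) := mul_nonneg (by linarith) (by linarith)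
    have e5 : l = 1 / 2 := by linarith
    subst e5
    linarith
  · right; left
    refine ⟨rfl, rfl, ?_⟩
    have e1 : 2 * l ^ 2 * (1 - k) = (1 - l) ^ 2 := by linarith
    have e2 : 2 * (1 - k) ≤ 1 := by linarith
    have e3 : l ^ 2 * (2 * (1 - k)) ≤ l ^ 2 * 1 := mul_le_mul_of_nonneg_left e2 (sq_nonneg l)
    have e5 : l = 1 / 2 := by nlinarith
    subst e5
    linarith

end Pool.Agent.Y369.MD.Plane
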